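import Pool.Agent.V5helper52.SF.Mot
import Pool.Agent.V5helper92.WC.Built

/-!
# Schur-finiteness of the motives of schemes which are built from known cases

`D` is the category of geometric motives over a perfect field `k` with rational coefficients, with the
motives `M X` and the motives with compact support `Mc X`.

For a class `S` of schemes over `k` the class `BuiltFrom k d S` is the smallest class of schemes over `k`
which contains `S` and the separated schemes of finite type of dimension at most `d` and which is stable
under isomorphisms, closed-open decompositions (two of the three schemes are in the class, then so is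
the third), affine bundles of Jouanolou's type, the passage from `X × 𝔾_m` to `X`, products of affine
schemes, and the passage from `Y` to `X` for finite free coverings `Y → X` of affine schemes.

The theorem has a purely geometric part: for `d ≥ 1` the schemes which are given by polynomials with
separated variables are in the class `C = BuiltFrom k d S`, if the variables are grouped in such a way that
the parts `f_i` of the polynomials are in the class `SepFrom k d C`. This class of polynomials contains all
`f` which are homogeneous of degree `e ≠ 0` for some weights of the variables and for which `{f = 1}` is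
in `C`, and it is stable under many substitutions.

The second part: Schur-finiteness of `Mc X` passes from dimension at most `d` and from `S` to `C`. For
`d = 1` there is no hypothesis on the dimension; one can take for `S` the class `FiniteKnown k`: abelian
varieties, smooth cubic hypersurfaces of dimension at most three, smooth quartic threefolds, and the
affine hypersurfaces `f = 1`, `f` a smooth cubic form in at most four variables.
-/

set_option autoImplicit false

open CategoryTheory MonoidalCategory AlgebraicGeometry MvPolynomial Pool.Agent.TH137.DG
  Pool.Agent.Y116.UV Pool.Agent.Z125.UN Pool.Agent.V5helper52.SF Pool.Agent.V5helper77.GW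
  Pool.Agent.V5helper92.WC

namespace Pool.Agent.Results.MP_fc2ced_ag.BuiltFromKnownCases

universe v u

/-- `X` is a smooth projective variety, embedded in a projective space `ℙ^N` as the set of the zeros of a
smooth form of degree `e` in `N + 1` variables. -/
def IsHypersurface {k : Type} [Field k] (e N : ℕ) (X : Sch k) : Prop :=
  IsSmProj X ∧ ∃ (i : X ⟶ PP k N) (f : Fin 1 → MvPolynomial (Fin (N + 1)) k),
    IsClosedImmersion i.left ∧ IsSmoothForm (f 0) ∧ (f 0).IsHomogeneous e ∧
      Set.range i.left = zeros f

/-- Schemes over `k` for which the motives are known to be Schur-finite, in characteristic zero: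

* `abelian`: abelian varieties (Shermenev, Künnemann, Kimura);
* `cubic`: smooth cubic hypersurfaces of dimension at most three;
* `quartic`: smooth quartic threefolds (all smooth Fano threefolds: Gorchinskiy and Guletskii);
* `level`: the affine hypersurfaces `f = 1`, `f` a smooth cubic form in at most four variables (they are
  complements of the smooth hypersurface `f = 0` in the smooth hypersurface `f = t^3`). -/
inductive FiniteKnown (k : Type) [Field k] : Sch k → Prop
  | abelian {X : Sch k} (h : IsSmProj X) (hg : Nonempty (GrpObj X)) : FiniteKnown k X
  | cubic {X : Sch k} (N : ℕ) (hN : N ≤ 4) (h : IsHypersurface 3 N X) : FiniteKnown k X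
  | quartic {X : Sch k} (h : IsHypersurface 4 4 X) : FiniteKnown k X
  | level {n : ℕ} (hn : n ≤ 4) (f : MvPolynomial (Fin n) k) (h : IsSmoothForm f)
      (h3 : f.IsHomogeneous 3) : FiniteKnown k (levelSet f)

variable {k : Type} [Field k] {C : Type u} [Category.{v} C] [MonoidalCategory C]
  [SymmetricCategory C] [Preadditive C] [Linear ℚ C] [Limits.HasZeroObject C] [HasShift C ℤ]
  [∀ n : ℤ, (shiftFunctor C n).Additive] [Pretriangulated C]

/-- The motive with compact support of `X` is Schur-finite, and if `X` is separated, of finite type and
smooth, then so is the motive of `X`. -/
def IsFinite (D : Motives k C) (X : Sch k) : Prop :=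
  IsSchurFinite (D.Mc X) ∧ (FT True X → Smooth X.hom → IsSchurFinite (D.M X))

/-- The motives of all smooth separated schemes of finite type over `k` of dimension at most `d` are
Schur-finite. -/
def SmoothUpTo (D : Motives k C) (d : ℕ) : Prop :=
  ∀ X : Sch k, FT True X → Smooth X.hom → topologicalKrullDim X.left ≤ d → IsSchurFinite (D.M X)

variable {D : Motives k C}

/-- **Schur-finiteness of the motives of schemes which are built from known cases.** Let `k` be a perfect
field.

(1) For every `d ≥ 1` and every class `S` of schemes over `k` the preimages and systems given by
polynomials with separated variables are built from schemes of dimension at most `d` and from `S`.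
(2) For every `d ≥ 1` the following are equivalent: the motives of the smooth schemes over `k` of
dimension at most `d` are Schur-finite; for all classes `S` of schemes with Schur-finite motives with
compact support this holds for the schemes which are built from schemes of dimension at most `d` and
from `S`.
(3) If the motives with compact support of the schemes in `S` are Schur-finite, then also those of all
schemes `X` which are built from schemes of dimension at most one and from `S`, and the motive of `X` is
Schur-finite if `X` is smooth.
(4) In particular for the class `S` of the known cases. -/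
theorem result [PerfectField k] (hD : IsMotives2 D) :
    (∀ (d : ℕ) (S : Sch k → Prop), 1 ≤ d →
      SepPreimages k d (BuiltFrom k d S) ∧ SepSystems k d (BuiltFrom k d S)) ∧
    (∀ d : ℕ, 1 ≤ d → (SmoothUpTo D d ↔ ∀ S : Sch k → Prop, (∀ X, S X → IsSchurFinite (D.Mc X)) →
      ∀ X : Sch k, BuiltFrom k d S X → IsFinite D X)) ∧
    (∀ S : Sch k → Prop, (∀ X, S X → IsSchurFinite (D.Mc X)) →
      ∀ X : Sch k, BuiltFrom k 1 S X → IsFinite D X) ∧
    ((∀ X : Sch k, FiniteKnown k X → IsSchurFinite (D.Mc X)) →
      ∀ X : Sch k, BuiltFrom k 1 (FiniteKnown k) X → IsFinite D X) := by
  have hP := cls_sf hD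
  have key : ∀ (d : ℕ), SmoothUpTo D d → ∀ S : Sch k → Prop,
      (∀ X, S X → IsSchurFinite (D.Mc X)) → ∀ X : Sch k, BuiltFrom k d S X → IsFinite D X := by
    intro d h S hS X hX
    have h1 : IsSchurFinite (D.Mc X) :=
      builtFrom_le (P := fun X : Sch k => IsSchurFinite (D.Mc X)) hP
        (fun Y hY hd => dim_smooth hP.toBnd d
          (fun Z hZ hs hd' => (hD.duality Z hZ hs).mp (h Z hZ hs hd')) Y hY hd) hS hX
    exact ⟨h1, fun hft hs => (hD.duality X hft hs).mpr h1⟩
  have hone : SmoothUpTo D 1 := fun X hX hs hd => hD.curves X hX hs (by exact_mod_cast hd)
  refine ⟨fun d S hd => ⟨builtFrom_preimages hd, builtFrom_systems hd⟩,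
    fun d hd => ⟨key d, fun h X hX hs hd' => ?_⟩, key 1 hone, key 1 hone _⟩
  exact (h (fun _ => False) (fun _ h0 => h0.elim) X (.dim hX hd')).2 hX hs

end Pool.Agent.Results.MP_fc2ced_ag.BuiltFromKnownCases
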