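import Pool.Agent.V5helper52.SF.Mot
import Pool.Agent.V5helper52.PT.Open
import Pool.Agent.V5helper52.VM.Main

/-!
# Schur-finiteness of motives and systems of equations with few terms

Idea of the proof for `E = k`: stratify the affine space by the coordinate subspaces. In the torus a system
with affinely independent exponents is, up to a finite free covering and a factor `𝔾_m^b`, a system of
equations of Fermat `∑_j M_ij u_j^e = 0`. Systems with several blocks are products. In one block proportional
columns of `M` are merged, by the induction for the Fermat equation; if the columns are the points `q_j` of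
a rational normal curve, then the system is `∑_j A_j q_j^i u_j^e = 0`, `0 ≤ i ≤ d`, and is dominated by a power
of the curve `u_j^e = x - q_j` (interpolation: `u_j^e` is proportional to `P(q_j)` for a polynomial `P`). The coefficients `a(m)` can be removed by an action of a
torus after roots of the `a(m)` have been adjoined to the base.
-/

set_option autoImplicit false

open CategoryTheory MonoidalCategory AlgebraicGeometry MvPolynomial Pool.Agent.TH137.DG
  Pool.Agent.Y116.UV Pool.Agent.Z125.UN Pool.Agent.V5helper52.SF Pool.Agent.V5helper52.VM

namespace Pool.Agent.Results.MP_fc2ced_ag.FewTerms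

universe v u

variable {k : Type} [Field k] {C : Type u} [Category.{v} C] [MonoidalCategory C]
  [SymmetricCategory C] [Preadditive C] [Linear ℚ C] [Limits.HasZeroObject C] [HasShift C ℤ]
  [∀ n : ℤ, (shiftFunctor C n).Additive] [Pretriangulated C] {D : Motives k C}

/-- **Schur-finiteness of motives and systems of equations with few terms.** Let `k` be a perfect field,
and let `n ≤ 1`, or let `n` be such that the motives of all smooth separated schemes of finite type over `k`
of dimension at most `n` are Schur-finite. Let `E` be a `k`-algebra of finite type, and let `F_1, …, F_r` be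
polynomials in `N` variables over `E` with few terms (`HasFewTerms k n F`):

1. `dim E ≤ n`, and the ideal `(F_1, …, F_r)` is generated by polynomials of Vandermonde type
   `∑_{m ∈ S, p(m) = β} b(m)^{d(β) - i} c(m)^i a(m) x^m`, `0 ≤ i ≤ d(β)`, where `S` is a finite set of affinely
   independent exponents, divided into blocks by `p`, with `b(m)`, `c(m)` in `k` and `a(m)` in `E`;
2. or `E = k`, `r ≤ 2`, and together the `F_i` have at most `n + 3` monomials;
3. or `E = k`, and the exponents of the monomials of all `F_i` are in an affine subspace of dimension at
   most `n + 1`.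

The motives with compact support of `V(F)`, the closed subscheme `F_1 = ⋯ = F_r = 0` of the affine space
`𝔸^N` over `Spec E`, and of its complement `U` are Schur-finite, and so are the motives of `V(F)` and of
`U`, if these schemes are smooth over `k`.

For `n = 1` there is no hypothesis. Examples of (1): one polynomial over a base of dimension at most one with
affinely independent exponents (`d = 0`), two polynomials over `k` with affinely independent exponents
(`d = 1`), the intersections `∑_j q_j^i x_j^e = 0`, `0 ≤ i ≤ d`, of Fermat hypersurfaces, for all `q_j` in `k`, and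
systems which consist of such systems with different exponents. -/
theorem result [PerfectField k] (hD : IsMotives2 D) (n : ℕ)
    (hn : n ≤ 1 ∨ ∀ X : Sch k, FT True X → Smooth X.hom → topologicalKrullDim X.left ≤ n →
      IsSchurFinite (D.M X)) {E : Type} [CommRing E] [Algebra k E] [Algebra.FiniteType k E]
    {N r : ℕ} (F : Fin r → MvPolynomial (Fin N) E) (hF : HasFewTerms k n F) :
    IsSchurFinite (D.Mc (aff k (MvPolynomial (Fin N) E ⧸ Ideal.span (Set.range F)))) ∧
    (Smooth (aff k (MvPolynomial (Fin N) E ⧸ Ideal.span (Set.range F))).hom →
      IsSchurFinite (D.M (aff k (MvPolynomial (Fin N) E ⧸ Ideal.span (Set.range F))))) ∧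
    ∀ (U : Sch k) (j : U ⟶ aff k (MvPolynomial (Fin N) E)), IsOpenImmersion j.left →
      Set.range j.left = {x : PrimeSpectrum (MvPolynomial (Fin N) E) | ∃ i, F i ∉ x.asIdeal} →
      IsSchurFinite (D.Mc U) ∧ (Smooth U.hom → IsSchurFinite (D.M U)) := by
  have hP := cls_sf hD
  have hn' : ∀ (A : Type) [CommRing A] [Algebra k A] [Algebra.FiniteType k A],
      ringKrullDim A ≤ n → IsSchurFinite (D.Mc (aff k A)) := by
    intro A _ _ _ hA
    rcases hn with hn | hn
    · exact hP.curve A (hA.trans (by exact_mod_cast hn))
    · refine dim_smooth hP.toBnd n (fun X hX hs hd => (hD.duality X hX hs).mp (hn X hX hs hd)) _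
        (ft_aff True) ?_
      rw [topDim_aff]
      exact hA
  have hft : Algebra.FiniteType k (MvPolynomial (Fin N) E) :=
    Algebra.FiniteType.trans (S := E) inferInstance inferInstance
  have h1 := p_main hP hn' F hF
  have h4 := p_space hP hn' F hF
  refine ⟨h1, fun hs => (hD.duality _ (ft_aff True) hs).mpr h1, fun U j hj hr => ?_⟩
  have h5 := hP.opened _ j (ft_aff True) (Pool.Agent.V5helper52.PT.triple_fam F U j hj hr) h1 h4
  exact ⟨h5, fun hs => (hD.duality U (ft_open U j hj) hs).mpr h5⟩

end Pool.Agent.Results.MP_fc2ced_ag.FewTerms
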