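import Pool.Agent.V5helper52.SF.Mot
import Pool.Agent.V5helper52.SF.QJou

/-!
# Schur-finiteness of motives and equations of degree two
-/

set_option autoImplicit false

open CategoryTheory MonoidalCategory AlgebraicGeometry MvPolynomial Pool.Agent.TH137.DG
  Pool.Agent.Y116.UV Pool.Agent.Z125.UN Pool.Agent.V5helper52.SF

namespace Pool.Agent.Results.MP_fc2ced_ag.QuadricsOverCurves

universe v u

variable {k : Type} [Field k] {C : Type u} [Category.{v} C] [MonoidalCategory C]
  [SymmetricCategory C] [Preadditive C] [Linear ℚ C] [Limits.HasZeroObject C] [HasShift C ℤ]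
  [∀ n : ℤ, (shiftFunctor C n).Additive] [Pretriangulated C] {D : Motives k C}

/-- **Schur-finiteness of motives and equations of degree two.** Let `k` be a perfect field (of any
characteristic), and let `n ≤ 1`, or let `n` be such that the motives of all smooth separated schemes
of finite type over `k` of dimension at most `n` are Schur-finite. Let `E` be a `k`-algebra of finite
type of dimension at most `d ≤ n`, and let `q_1, …, q_m` be polynomials of total degree at most two in
any number `N` of variables over `E`, where `d + m ≤ n + 1`. The motives with compact support of the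
closed subscheme `q_1 = ⋯ = q_m = 0` of the affine space `𝔸^N` over `Spec E` and of its complement
`U` are Schur-finite, and so are the motives of these schemes if they are smooth over `k`.

For `n = 1` there is no hypothesis: this is the case of one equation of degree at most two over an
affine curve, and of two equations of degree at most two over `k`. -/
theorem result [PerfectField k] (hD : IsMotives2 D) (n : ℕ)
    (hn : n ≤ 1 ∨ ∀ X : Sch k, FT True X → Smooth X.hom → topologicalKrullDim X.left ≤ n →
      IsSchurFinite (D.M X))
    {E : Type} [CommRing E] [Algebra k E] [Algebra.FiniteType k E] {d m N : ℕ}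
    (hE : ringKrullDim E ≤ d) (hd : d ≤ n) (hm : d + m ≤ n + 1)
    (q : Fin m → MvPolynomial (Fin N) E) (hq : ∀ i, (q i).totalDegree ≤ 2) :
    IsSchurFinite (D.Mc (aff k (MvPolynomial (Fin N) E ⧸ Ideal.span (Set.range q)))) ∧
    (Smooth (aff k (MvPolynomial (Fin N) E ⧸ Ideal.span (Set.range q))).hom →
      IsSchurFinite (D.M (aff k (MvPolynomial (Fin N) E ⧸ Ideal.span (Set.range q))))) ∧
    ∀ (U : Sch k) (j : U ⟶ aff k (MvPolynomial (Fin N) E)), IsOpenImmersion j.left →
      Set.range j.left = {x : PrimeSpectrum (MvPolynomial (Fin N) E) | ∃ l, q l ∉ x.asIdeal} →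
      IsSchurFinite (D.Mc U) ∧ (Smooth U.hom → IsSchurFinite (D.M U)) := by
  have hP := cls_sf hD
  have hn' : ∀ (A : Type) [CommRing A] [Algebra k A] [Algebra.FiniteType k A],
      ringKrullDim A ≤ n → IsSchurFinite (D.Mc (aff k A)) := by
    intro A _ _ _ hA
    rcases hn with hn | hn
    · exact hP.curve A (hA.trans (by exact_mod_cast hn))
    · refine dim_smooth hP.toBnd n (fun X hX hs hd => (hD.duality X hX hs).mp (hn X hX hs hd)) _
        (ft_aff True) ?_
      rw [topDim_aff]
      exact hA
  obtain ⟨h1, h2⟩ := p_quadrics hP hn' hE hd hm q hq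
  refine ⟨h1, fun hs => (hD.duality _ (ft_aff True) hs).mpr h1, fun U j hj hr =>
    ⟨h2 U j hj hr, fun hs => (hD.duality U (ft_open U j hj) hs).mpr (h2 U j hj hr)⟩⟩

end Pool.Agent.Results.MP_fc2ced_ag.QuadricsOverCurves
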