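import Pool.Agent.Z125.UN.MotUni
import Pool.Agent.V5helper52.TU.Atlas

/-!
# Schur-finiteness of motives and actions of solvable groups
-/

set_option autoImplicit false

open CategoryTheory MonoidalCategory AlgebraicGeometry Pool.Agent.TH137.DG Pool.Agent.Y116.UV
  Pool.Agent.Z125.UN Pool.Agent.V5helper52.TU

namespace Pool.Agent.Results.MP_fc2ced_ag.SolvableGroupActions

universe v u

variable {k : Type} [Field k] {C : Type u} [Category.{v} C] [MonoidalCategory C]
  [SymmetricCategory C] [Preadditive C] [Linear ℚ C] [Limits.HasZeroObject C] [HasShift C ℤ]
  [∀ n : ℤ, (shiftFunctor C n).Additive] [Pretriangulated C] {D : Motives k C}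

/-- **Schur-finiteness of motives and actions of solvable groups.** Let `k` be a perfect field, and
let `n ≤ 1`, or let `n` be such that the motives of all smooth separated schemes of finite type over
`k` of dimension at most `n` are Schur-finite. Let `X` be a separated scheme of finite type over `k`
which is covered by finitely many open subschemes `U_i`, each of which is an open subscheme of an
affine scheme `Spec A_i` of finite type with an action of a torus and, if `k` has characteristic
zero, of a unipotent group normalized by the torus (a grading of `A_i` and a triangular family of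
homogeneous locally nilpotent derivations), such that all `U_i ∩ U_l` are stable open subschemes of
`Spec A_i`. If the modality of these actions is at most `n` (for tori, if their complexity is at most
`n`), then the motive with compact support of `X` is Schur-finite, and the motive of `X` is
Schur-finite if `X` is smooth. -/
theorem result [PerfectField k] (hD : IsMotives D) (n : ℕ)
    (hn : n ≤ 1 ∨ ∀ X : Sch k, FT True X → Smooth X.hom → topologicalKrullDim X.left ≤ n →
      IsSchurFinite (D.M X))
    (X : Sch k) (hX : FT True X) (a : StableAtlas X n) :
    IsSchurFinite (D.Mc X) ∧ (Smooth X.hom → IsSchurFinite (D.M X)) := by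
  have hB := bnd_sf hD
  have hn' : ∀ (A : Type) [CommRing A] [Algebra k A] [Algebra.FiniteType k A],
      ringKrullDim A ≤ n → IsSchurFinite (D.Mc (aff k A)) := by
    intro A _ _ _ hA
    rcases hn with hn | hn
    · refine dim_smooth hB 1 (fun X hX hs hd => ?_) (aff k A) (ft_aff True) ?_
      · exact (hD.duality X hX hs).mp (hD.curves X hX hs (by exact_mod_cast hd))
      · rw [topDim_aff]
        exact hA.trans (by exact_mod_cast hn)
    · refine dim_smooth hB n (fun X hX hs hd => (hD.duality X hX hs).mp (hn X hX hs hd)) _
        (ft_aff True) ?_
      rw [topDim_aff]
      exact hA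
  have h1 := p_atlas hB hn' hX a
  exact ⟨h1, fun hs => (hD.duality X hX hs).mpr h1⟩

end Pool.Agent.Results.MP_fc2ced_ag.SolvableGroupActions
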